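import Pool.Agent.H39.IX.Targets

/-!
# MP_323167_an: operators acting coordinatewise on `l²(H)`
-/

set_option autoImplicit false
set_option linter.unusedSectionVars false

open scoped InnerProductSpace Topology
open Filter Finset Pool.Agent.H80.G2

namespace Pool.Agent.H39.IX

variable {H : Type} [NormedAddCommGroup H] [InnerProductSpace ℂ H] [CompleteSpace H]

/-- the Hilbert space `l²(H)` -/
abbrev KH (H : Type) [NormedAddCommGroup H] [InnerProductSpace ℂ H] := lp (fun _ : ℕ => H) 2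

theorem memlp_apply (a : H →L[ℂ] H) (κ : KH H) :
    Memℓp (fun n => a ((κ : ∀ _ : ℕ, H) n)) 2 := by
  have h1 : (0 : ℝ) < (2 : ENNReal).toReal := by norm_num
  have hs := (lp.memℓp κ).summable h1
  have h2 : (2 : ENNReal).toReal = ((2 : ℕ) : ℝ) := by norm_num
  simp only [h2, Real.rpow_natCast] at hs
  refine memℓp_gen ?_
  simp only [h2, Real.rpow_natCast]
  refine Summable.of_nonneg_of_le (fun n => by positivity) (fun n => ?_) (hs.mul_left (‖a‖ ^ 2))
  rw [← mul_pow]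
  exact pow_le_pow_left₀ (norm_nonneg _) (a.le_opNorm _) 2

/-- the operator `a` acting coordinatewise, as a linear map -/
noncomputable def Lm0 (a : H →L[ℂ] H) : KH H →ₗ[ℂ] KH H where
  toFun κ := ⟨fun n => a ((κ : ∀ _ : ℕ, H) n), memlp_apply a κ⟩
  map_add' x y := by
    ext n
    exact map_add a _ _
  map_smul' c x := by
    ext n
    exact map_smul a _ _

theorem Lm0_norm (a : H →L[ℂ] H) (κ : KH H) : ‖Lm0 a κ‖ ≤ ‖a‖ * ‖κ‖ := by
  have h1 : (2 : ENNReal).toReal = ((2 : ℕ) : ℝ) := by norm_num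
  have hp : (0 : ℝ) < (2 : ENNReal).toReal := by norm_num
  have e1 := lp.norm_rpow_eq_tsum (p := 2) hp (Lm0 a κ)
  have e2 := lp.norm_rpow_eq_tsum (p := 2) hp κ
  have hs := (lp.memℓp κ).summable hp
  have hs2 := (lp.memℓp (Lm0 a κ)).summable hp
  simp only [h1, Real.rpow_natCast] at e1 e2 hs hs2
  have h0 : 0 ≤ ‖a‖ * ‖κ‖ := by positivity
  rw [← abs_of_nonneg (norm_nonneg (Lm0 a κ)), ← abs_of_nonneg h0]
  refine sq_le_sq.1 ?_
  rw [mul_pow, e1, e2, ← tsum_mul_left]
  refine Summable.tsum_le_tsum (fun n => ?_) hs2 (hs.mul_left _)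
  rw [← mul_pow]
  exact pow_le_pow_left₀ (norm_nonneg _) (a.le_opNorm _) 2

/-- the operator `a` acting coordinatewise -/
noncomputable def Lm (a : H →L[ℂ] H) : KH H →L[ℂ] KH H :=
  (Lm0 a).mkContinuous ‖a‖ (Lm0_norm a)

theorem Lm_apply (a : H →L[ℂ] H) (κ : KH H) (n : ℕ) :
    (Lm a κ : ∀ _ : ℕ, H) n = a ((κ : ∀ _ : ℕ, H) n) := rfl

theorem norm_Lm_le (a : H →L[ℂ] H) : ‖Lm a‖ ≤ ‖a‖ :=
  LinearMap.mkContinuous_norm_le _ (norm_nonneg _) _

theorem Lm_add (a b : H →L[ℂ] H) : Lm (a + b) = Lm a + Lm b := by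
  ext κ n
  rfl

theorem Lm_sub (a b : H →L[ℂ] H) : Lm (a - b) = Lm a - Lm b := by
  ext κ n
  rfl

theorem Lm_smul (c : ℂ) (a : H →L[ℂ] H) : Lm (c • a) = c • Lm a := by
  ext κ n
  rfl

theorem Lm_one : Lm (1 : H →L[ℂ] H) = 1 := by
  ext κ n
  rfl

theorem Lm_mul (a b : H →L[ℂ] H) : Lm (a * b) = Lm a * Lm b := by
  ext κ n
  rfl

theorem Lm_emb {ξ : ℕ → H} (h : Summable fun n => ‖ξ n‖ ^ 2) (a b : H →L[ℂ] H) :
    Lm a (emb h b) = emb h (a * b) := by
  ext n
  rfl

theorem Lm_star (a : H →L[ℂ] H) : Lm (star a) = star (Lm a) := by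
  rw [ContinuousLinearMap.star_eq_adjoint (Lm a)]
  refine (ContinuousLinearMap.eq_adjoint_iff _ _).2 fun x y => ?_
  rw [lp.inner_eq_tsum, lp.inner_eq_tsum]
  congr 1
  funext n
  rw [Lm_apply, Lm_apply, ContinuousLinearMap.star_eq_adjoint,
    ContinuousLinearMap.adjoint_inner_left]

/-- the `n`-th coordinate -/
noncomputable def Pn (n : ℕ) : KH H →L[ℂ] H :=
  LinearMap.mkContinuous
    { toFun := fun κ => (κ : ∀ _ : ℕ, H) n
      map_add' := fun _ _ => rfl
      map_smul' := fun _ _ => rfl } 1 fun κ => by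
        rw [one_mul]
        exact lp.norm_apply_le_norm (by norm_num) κ n

theorem Pn_apply (n : ℕ) (κ : KH H) : Pn n κ = (κ : ∀ _ : ℕ, H) n := rfl

theorem Pn_Lm (a : H →L[ℂ] H) (n : ℕ) (κ : KH H) : Pn n (Lm a κ) = a (Pn n κ) := rfl

/-- the inclusion of the `n`-th coordinate -/
noncomputable def In (n : ℕ) : H →L[ℂ] KH H := ContinuousLinearMap.adjoint (Pn n)

theorem In_eq (n : ℕ) (x : H) : In n x = lp.single 2 n x := by
  classical
  refine ext_inner_right ℂ fun κ => ?_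
  unfold In
  rw [ContinuousLinearMap.adjoint_inner_left, Pn_apply, lp.inner_single_left]

theorem In_apply (n m : ℕ) (x : H) : (In n x : ∀ _ : ℕ, H) m = if m = n then x else 0 := by
  classical
  rw [In_eq, lp.single_apply]
  by_cases hm : m = n
  · subst hm
    simp
  · simp [hm]

theorem Lm_In (a : H →L[ℂ] H) (n : ℕ) (x : H) : Lm a (In n x) = In n (a x) := by
  ext m
  rw [Lm_apply, In_apply, In_apply]
  split_ifs
  · rfl
  · exact map_zero a

theorem hasSum_In (κ : KH H) : HasSum (fun n => In n (Pn n κ)) κ := by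
  classical
  have h := lp.hasSum_single (p := 2) (by norm_num) κ
  have e : (fun n => In n (Pn n κ)) = fun n => lp.single 2 n ((κ : ∀ _ : ℕ, H) n) := by
    funext n
    rw [In_eq, Pn_apply]
  rw [e]
  exact h

end Pool.Agent.H39.IX
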