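import Pool.Agent.H80.G2.Targets

/-!
# MP_323167_an: index 2 subfactors containing a regular hyperfinite algebra. Definitions.

All algebras are von Neumann algebras on a complex Hilbert space `H` (not necessarily separable).
-/

set_option autoImplicit false

open scoped InnerProductSpace Topology
open Filter Finset Pool.Agent.H80.G2

namespace Pool.Agent.H39.IX

variable {H : Type} [NormedAddCommGroup H] [InnerProductSpace ℂ H] [CompleteSpace H]

/-! ### definitions of the statement -/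

/-- an increasing sequence of finite groups of unitary operators -/
structure GrpSeq (G : ℕ → Finset (H →L[ℂ] H)) : Prop where
  one : ∀ n, (1 : H →L[ℂ] H) ∈ G n
  mul : ∀ n, ∀ g ∈ G n, ∀ h ∈ G n, g * h ∈ G n
  star : ∀ n, ∀ g ∈ G n, star g ∈ G n
  uni : ∀ n, ∀ g ∈ G n, Star.star g * g = 1
  mono : ∀ n, G n ⊆ G (n + 1)

/-- the union of the groups -/
def InG (G : ℕ → Finset (H →L[ℂ] H)) (g : H →L[ℂ] H) : Prop := ∃ n, g ∈ G n

/-- the commutant of the union of the groups -/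
def Com (G : ℕ → Finset (H →L[ℂ] H)) (y : H →L[ℂ] H) : Prop := ∀ g, InG G g → g * y = y * g

/-- `A` is the von Neumann algebra generated by the groups -/
def Gen (A : VonNeumannAlgebra H) (G : ℕ → Finset (H →L[ℂ] H)) : Prop :=
  ∀ x, x ∈ A ↔ ∀ y, Com G y → x * y = y * x

/-- `A` is generated by an increasing sequence of finite groups of unitary operators -/
def HF (A : VonNeumannAlgebra H) : Prop := ∃ G, GrpSeq G ∧ Gen A G

/-- the normaliser of `A` in the unitary group of `P` -/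
def Nor (P A : VonNeumannAlgebra H) (u : H →L[ℂ] H) : Prop :=
  Uni P u ∧ (∀ a ∈ A, u * a * star u ∈ A) ∧ ∀ a ∈ A, star u * a * u ∈ A

/-- `A` is regular in `P`: the normaliser generates `P` -/
def Reg (P A : VonNeumannAlgebra H) : Prop :=
  ∀ x ∈ P, ∀ y : H →L[ℂ] H, (∀ u, Nor P A u → u * y = y * u) → x * y = y * x

/-- `P` is an index 2 subfactor of `M`, normalised by the unitary element `w` -/
structure Idx (M P : VonNeumannAlgebra H) (w : H →L[ℂ] H) : Prop where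
  fac : IsFac P
  sub : ∀ x ∈ P, x ∈ M
  uni : Uni M w
  nor : ∀ x ∈ P, w * x * star w ∈ P
  ort : ∀ ξ : ℕ → H, IsTr M ξ → ∀ x ∈ P, tr ξ (x * w) = 0
  dec : ∀ x ∈ M, ∃ y ∈ P, ∃ z ∈ P, x = y + z * w

/-! ### averages -/

/-- `F` is the average over the groups -/
structure IsF (G : ℕ → Finset (H →L[ℂ] H)) (F : (H →L[ℂ] H) → (H →L[ℂ] H)) : Prop where
  add : ∀ S T, F (S + T) = F S + F T
  smul : ∀ (c : ℂ) T, F (c • T) = c • F T
  star : ∀ T, F (star T) = Star.star (F T)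
  com : ∀ T, Com G (F T)
  fix : ∀ T, Com G T → F T = T
  bim : ∀ a b T, Com G a → Com G b → F (a * T * b) = a * F T * b
  nrm : ∀ T, ‖F T‖ ≤ ‖T‖
  mem : ∀ N : VonNeumannAlgebra H, (∀ g, InG G g → g ∈ N) → ∀ T ∈ N, F T ∈ N
  trc : ∀ (M : VonNeumannAlgebra H) (ξ : ℕ → H), IsTr M ξ → (∀ g, InG G g → g ∈ M) →
    ∀ x ∈ M, tr ξ (F x) = tr ξ x
  cs : ∀ (M : VonNeumannAlgebra H) (ξ : ℕ → H), IsTr M ξ → (∀ g, InG G g → g ∈ M) →
    ∀ a ∈ M, ∀ b ∈ M, ∀ T : H →L[ℂ] H,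
      ‖tr ξ (F (Star.star a * T * b))‖ ≤ ‖T‖ * n2 ξ a * n2 ξ b

/-- unitary operators -/
def UH (u : H →L[ℂ] H) : Prop := star u * u = 1 ∧ u * star u = 1

/-! ### the situation -/

/-- `P` is an index 2 subfactor of `M`, `A` is regular in `P`, `A` is in `M` and in `N`, and `M` and
`N` are close. -/
structure Sit (M N P A : VonNeumannAlgebra H) (w : H →L[ℂ] H) (G : ℕ → Finset (H →L[ℂ] H))
    (ξ ζ : ℕ → H) : Prop where
  idx : Idx M P w
  trM : IsTr M ξ
  trN : IsTr N ζ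
  grp : GrpSeq G
  gen : Gen A G
  GP : ∀ g, InG G g → g ∈ P
  GN : ∀ g, InG G g → g ∈ N
  rc : ∀ x ∈ M, Com G x → x ∈ P
  reg : Reg P A
  nMN : Nr (1 / 1000000) M N
  nNM : Nr (1 / 1000000) N M

/-- the unitary elements of `N` which act on `A` as an element of the normaliser of `A` in `P` -/
def VN (N P A : VonNeumannAlgebra H) (G : ℕ → Finset (H →L[ℂ] H)) (v : H →L[ℂ] H) : Prop :=
  Uni N v ∧ ∃ u, Nor P A u ∧ ∀ g, InG G g → v * g * star v = u * g * star u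

/-- `Q` is generated by these elements -/
def IsPN (N P A Q : VonNeumannAlgebra H) (G : ℕ → Finset (H →L[ℂ] H)) : Prop :=
  ∀ x, x ∈ Q ↔ ∀ y : H →L[ℂ] H, (∀ v, VN N P A G v → v * y = y * v) → x * y = y * x

/-- `Q` and `P` are close -/
structure Cls (P Q : VonNeumannAlgebra H) : Prop where
  QP : ∀ y ∈ Q, ∃ a ∈ P, ‖y - a‖ ≤ 4 / 1000000 * ‖y‖
  PQ : ∀ x ∈ P, ∃ y ∈ Q, ‖x - y‖ ≤ 20 / 1000000 * ‖x‖

/-- `w₂` in `N` acts on the groups almost as `w`: `w₂ g w₂* = s w g w* s*` is in `Q`. -/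
structure W2 (N Q : VonNeumannAlgebra H) (w : H →L[ℂ] H) (G : ℕ → Finset (H →L[ℂ] H))
    (s w₂ : H →L[ℂ] H) : Prop where
  us : UH s
  s1 : ‖s - 1‖ ≤ 6 / 1000
  uw : Uni N w₂
  ww : ‖w₂ - w‖ ≤ 4 / 100
  mem : ∀ g, InG G g → s * (w * g * star w) * star s ∈ Q
  act : ∀ g, InG G g → w₂ * g * star w₂ = s * (w * g * star w) * star s

end Pool.Agent.H39.IX
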