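import Pool.Agent.H39.IX.Lmul

/-!
# MP_323167_an, row JNM
-/

set_option autoImplicit false
set_option linter.unusedSectionVars false

open scoped InnerProductSpace Topology
open Filter Finset Pool.Agent.H80.G2

namespace Pool.Agent.H39.IX

theorem jnm_aux {H : Type} [NormedAddCommGroup H] [InnerProductSpace ℂ H] [CompleteSpace H]
    (P : VonNeumannAlgebra H) (ξ : ℕ → H) (h : IsTr P ξ) (u v : KH H)
    (hu : u ∈ Img P h.one.summable)
    (huv : ∀ c ∈ P, ⟪u, emb h.one.summable c⟫_ℂ = ⟪emb h.one.summable (star c), v⟫_ℂ) :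
    ‖u‖ ≤ ‖v‖ := by
  have h1 : ∀ c ∈ P, ‖u‖ ^ 2 ≤ ‖v‖ ^ 2 + ‖emb h.one.summable c - u‖ ^ 2 := by
    intro c hc
    have e1 := norm_sub_sq (𝕜 := ℂ) (emb h.one.summable (star c)) v
    have e2 := norm_sub_sq (𝕜 := ℂ) (emb h.one.summable c) u
    have e3 : ‖emb h.one.summable (star c)‖ = ‖emb h.one.summable c‖ := by
      rw [norm_emb, norm_emb, n2_star h hc]
    have e4 : RCLike.re ⟪emb h.one.summable c, u⟫_ℂ = RCLike.re ⟪u, emb h.one.summable c⟫_ℂ :=
      inner_re_symm _ _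
    rw [← huv c hc, e3] at e1
    rw [e4] at e2
    have e5 : 0 ≤ ‖emb h.one.summable (star c) - v‖ ^ 2 := by positivity
    linarith
  have h2 : ‖u‖ ^ 2 ≤ ‖v‖ ^ 2 + ‖u - u‖ ^ 2 := by
    have hcl : IsClosed {κ : KH H | ‖u‖ ^ 2 ≤ ‖v‖ ^ 2 + ‖κ - u‖ ^ 2} :=
      isClosed_le continuous_const (by fun_prop)
    refine closure_minimal ?_ hcl hu
    rintro x ⟨a, ha, rfl⟩
    exact h1 a ha
  rw [sub_self, norm_zero] at h2
  exact (sq_le_sq₀ (norm_nonneg _) (norm_nonneg _)).1 (by linarith)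

theorem pf_JNM : T_JNM := by
  intro H _ _ _ P ξ h W hc h1 h2
  have key : ∀ c ∈ P, ⟪W (emb h.one.summable 1), emb h.one.summable c⟫_ℂ =
      ⟪emb h.one.summable (star c), star W (emb h.one.summable 1)⟫_ℂ := by
    intro c hcP
    have e1 := hc 1 (one_mem P) (star c) (star_mem hcP) 1 (one_mem P)
    rw [one_mul, one_mul, star_star] at e1
    rw [← e1, ContinuousLinearMap.star_eq_adjoint W]
    exact (ContinuousLinearMap.adjoint_inner_right W _ _).symm
  refine ⟨le_antisymm (jnm_aux P ξ h _ _ h1 key) (jnm_aux P ξ h _ _ h2 fun c hcP => ?_), key⟩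
  have e1 := key (star c) (star_mem hcP)
  rw [star_star] at e1
  rw [← inner_conj_symm, ← e1, inner_conj_symm]

end Pool.Agent.H39.IX
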