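import Pool.Agent.H39.IX.Lmul

/-!
# MP_323167_an, row LBB: operators which commute with the right multiplications
-/

set_option autoImplicit false
set_option linter.unusedSectionVars false

open scoped InnerProductSpace Topology
open Filter Finset Pool.Agent.H80.G2

namespace Pool.Agent.H39.IX

section

variable {H : Type} [NormedAddCommGroup H] [InnerProductSpace ℂ H] [CompleteSpace H]

/-- the image of `P` as a closed submodule -/
noncomputable def ImS (P : VonNeumannAlgebra H) {ξ : ℕ → H}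
    (h : Summable fun n => ‖ξ n‖ ^ 2) : Submodule ℂ (KH H) :=
  (P.toStarSubalgebra.toSubalgebra.toSubmodule.map (emb h)).topologicalClosure

theorem mem_ImS (P : VonNeumannAlgebra H) {ξ : ℕ → H} (h : Summable fun n => ‖ξ n‖ ^ 2)
    (κ : KH H) : κ ∈ ImS P h ↔ κ ∈ Img P h := by
  unfold ImS Img
  rw [← SetLike.mem_coe, Submodule.topologicalClosure_coe]
  have e : ((P.toStarSubalgebra.toSubalgebra.toSubmodule.map (emb h) : Submodule ℂ (KH H)) :
      Set (KH H)) = {κ | ∃ a ∈ P, κ = emb h a} := by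
    ext x
    constructor
    · rintro ⟨a, ha, rfl⟩
      exact ⟨a, ha, rfl⟩
    · rintro ⟨a, ha, rfl⟩
      exact ⟨a, ha, rfl⟩
  rw [e]

theorem emb_mem_ImS (P : VonNeumannAlgebra H) {ξ : ℕ → H} (h : Summable fun n => ‖ξ n‖ ^ 2)
    {a : H →L[ℂ] H} (ha : a ∈ P) : emb h a ∈ ImS P h :=
  (mem_ImS P h _).2 (subset_closure ⟨a, ha, rfl⟩)

theorem isClosed_ImS (P : VonNeumannAlgebra H) {ξ : ℕ → H} (h : Summable fun n => ‖ξ n‖ ^ 2) :
    IsClosed (ImS P h : Set (KH H)) := Submodule.isClosed_topologicalClosure _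

/-- closure induction -/
theorem ImS_induction (P : VonNeumannAlgebra H) {ξ : ℕ → H} (h : Summable fun n => ‖ξ n‖ ^ 2)
    {p : KH H → Prop} (hp : IsClosed {κ | p κ}) (he : ∀ a ∈ P, p (emb h a)) :
    ∀ κ ∈ ImS P h, p κ := by
  intro κ hκ
  rw [mem_ImS] at hκ
  have : {κ | ∃ a ∈ P, κ = emb h a} ⊆ {κ | p κ} := by
    rintro x ⟨a, ha, rfl⟩
    exact he a ha
  exact closure_minimal this hp hκ

/-- two operators which agree on the image of `P` and vanish on its complement are equal -/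
theorem op_ext (P : VonNeumannAlgebra H) {ξ : ℕ → H} (h : Summable fun n => ‖ξ n‖ ^ 2)
    (A B : KH H →L[ℂ] KH H) (h1 : ∀ a ∈ P, A (emb h a) = B (emb h a))
    (hA : ∀ κ, (∀ a ∈ P, ⟪emb h a, κ⟫_ℂ = 0) → A κ = 0)
    (hB : ∀ κ, (∀ a ∈ P, ⟪emb h a, κ⟫_ℂ = 0) → B κ = 0) : A = B := by
  have : CompleteSpace (ImS P h) := (isClosed_ImS P h).completeSpace_coe
  ext1 κ
  obtain ⟨y, hy, z, hz, rfl⟩ := (ImS P h).exists_add_mem_mem_orthogonal κ
  have hz' : ∀ a ∈ P, ⟪emb h a, z⟫_ℂ = 0 := fun a ha =>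
    (Submodule.mem_orthogonal _ _).1 hz _ (emb_mem_ImS P h ha)
  rw [map_add, map_add, hA z hz', hB z hz', add_zero, add_zero]
  exact ImS_induction P h (p := fun κ => A κ = B κ) (isClosed_eq A.continuous B.continuous) h1 y hy

/-- elements of the closure are determined by the inner products -/
theorem ImS_ext (P : VonNeumannAlgebra H) {ξ : ℕ → H} (h : Summable fun n => ‖ξ n‖ ^ 2)
    {u v : KH H} (hu : u ∈ ImS P h) (hv : v ∈ ImS P h)
    (huv : ∀ c ∈ P, ⟪u, emb h c⟫_ℂ = ⟪v, emb h c⟫_ℂ) : u = v := by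
  have h1 : ∀ κ ∈ ImS P h, ⟪u - v, κ⟫_ℂ = 0 := by
    refine ImS_induction P h (p := fun κ => ⟪u - v, κ⟫_ℂ = 0)
      (isClosed_eq (by fun_prop) continuous_const) fun a ha => ?_
    rw [inner_sub_left, huv a ha, sub_self]
  have h2 := h1 _ (Submodule.sub_mem _ hu hv)
  exact sub_eq_zero.1 (inner_self_eq_zero.1 h2)

end

theorem ring_aux {A : Type} [Ring A] (r h X R : A) :
    r * ((h - X) * R) - (r * h) * ((h - X) * (X * R)) =
      (r * h) * ((1 + X * X) * R) - (r * (1 + h * h)) * (X * R) := by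
  noncomm_ring

theorem pf_LBB (hRMO : T_RMO) (hJNM : T_JNM) (hRSV : T_RSV) (hCAY : T_CAY)
    (hCMP : Pool.Agent.H80.G2.T_CMP) : T_LBB := by
  intro H _ _ _ P ξ h T hT hT1 hTV hTc
  have hs := h.one.summable
  set E := emb h.one.summable with hE
  set V := ImS P h.one.summable with hV
  have hTV' : ∀ κ, T κ ∈ V := fun κ => (mem_ImS P _ _).2 (hTV κ)
  -- right multiplications
  choose R hR1 hR2 hR3 using hRMO H P ξ h
  have hR3' : ∀ b (hb : b ∈ P) κ, R b hb κ ∈ V := fun b hb κ => (mem_ImS P _ _).2 (hR3 b hb κ)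
  have L3 : ∀ b (hb : b ∈ P), ∀ c ∈ P, ∀ κ ∈ V, ⟪R b hb κ, E c⟫_ℂ = ⟪κ, E (c * star b)⟫_ℂ := by
    intro b hb c hc
    refine ImS_induction P h.one.summable
      (p := fun κ => ⟪R b hb κ, E c⟫_ℂ = ⟪κ, E (c * star b)⟫_ℂ)
      (isClosed_eq (by fun_prop) (by fun_prop)) fun a ha => ?_
    rw [hR1 b hb a ha, hE, inner_emb, inner_emb, star_mul]
    have e1 : star b * star a * c = star b * (star a * c) := by rw [mul_assoc]
    have e2 : star a * (c * star b) = (star a * c) * star b := by rw [mul_assoc]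
    rw [e1, e2]
    exact h.comm _ (star_mem hb) _ (mul_mem (star_mem ha) hc)
  have hperp : ∀ W : KH H →L[ℂ] KH H, star W = W → (∀ κ, W κ ∈ V) →
      ∀ κ, (∀ a ∈ P, ⟪E a, κ⟫_ℂ = 0) → W κ = 0 := by
    intro W hW hWV κ hκ
    have h1 : ∀ x ∈ V, ⟪x, κ⟫_ℂ = 0 :=
      ImS_induction P h.one.summable (p := fun x => ⟪x, κ⟫_ℂ = 0)
        (isClosed_eq (by fun_prop) continuous_const) hκ
    have h2 : ⟪W κ, W κ⟫_ℂ = 0 := by
      have h3 := h1 _ (hWV (W κ))
      rw [← hW, ContinuousLinearMap.star_eq_adjoint, ContinuousLinearMap.adjoint_inner_left,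
        ← ContinuousLinearMap.star_eq_adjoint, hW] at h3
      exact h3
    exact inner_self_eq_zero.1 h2
  -- T commutes with R
  have hTR : ∀ b (hb : b ∈ P), T * R b hb = R b hb * T := by
    intro b hb
    refine op_ext P h.one.summable _ _ (fun a ha => ?_) (fun κ hκ => ?_) (fun κ hκ => ?_)
    · change T (R b hb (E a)) = R b hb (T (E a))
      rw [hR1 b hb a ha]
      refine ImS_ext P h.one.summable (hTV' _) (hR3' _ _ _) fun c hc => ?_
      rw [L3 b hb c hc _ (hTV' _)]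
      exact hTc a ha b hb c hc
    · change T (R b hb κ) = 0
      rw [hR2 b hb κ hκ, map_zero]
    · change R b hb (T κ) = 0
      rw [hperp T hT hTV' κ hκ, map_zero]
  obtain ⟨X, hX1, hX2, hX3⟩ := hCAY (KH H) T hT hT1
  have hXR : ∀ b (hb : b ∈ P), X * R b hb = R b hb * X := fun b hb =>
    (hX3 _ (hTR b hb).symm).symm
  have hXV : ∀ κ, X κ ∈ V := by
    intro κ
    have e : X κ = (1 / 2 : ℂ) • T ((1 + X * X) κ) := by
      have e1 : T ((1 + X * X) κ) = (2 : ℂ) • X κ := by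
        change (T * (1 + X * X)) κ = _
        rw [hX2]
        rfl
      rw [e1, smul_smul]
      norm_num
    rw [e]
    exact V.smul_mem _ (hTV' _)
  obtain ⟨RR, hr0, hr1, hr2, hr3, hr4, hr5, hr6, -⟩ := hRSV (KH H) X hX1
  have hRRR : ∀ b (hb : b ∈ P), RR * R b hb = R b hb * RR := fun b hb =>
    (hr6 _ (hXR b hb).symm).symm
  have hRRV : ∀ κ ∈ V, RR κ ∈ V := by
    intro κ hκ
    have e : RR κ = κ - X (X (RR κ)) := by
      have e1 : ((1 + X * X) * RR) κ = κ := by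
        rw [hr2]
        rfl
      have e2 : ((1 + X * X) * RR) κ = RR κ + X (X (RR κ)) := rfl
      rw [e2] at e1
      exact eq_sub_of_add_eq e1
    rw [e]
    exact V.sub_mem hκ (hXV _)
  -- good operators
  let Good : (KH H →L[ℂ] KH H) → Prop := fun W =>
    (∀ b (hb : b ∈ P), W * R b hb = R b hb * W) ∧ (∀ κ ∈ V, W κ ∈ V) ∧ ∀ κ ∈ V, star W κ ∈ V
  have gX : Good X := ⟨hXR, fun κ _ => hXV κ, fun κ _ => by rw [hX1]; exact hXV κ⟩
  have gR : Good RR := ⟨hRRR, hRRV, fun κ hκ => by rw [hr0]; exact hRRV κ hκ⟩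
  have gmul : ∀ W Z, Good W → Good Z → Good (W * Z) := by
    rintro W Z ⟨a1, a2, a3⟩ ⟨b1, b2, b3⟩
    refine ⟨fun b hb => ?_, fun κ hκ => a2 _ (b2 _ hκ), fun κ hκ => ?_⟩
    · rw [mul_assoc, b1 b hb, ← mul_assoc, a1 b hb, mul_assoc]
    · rw [star_mul]
      exact b3 _ (a3 _ hκ)
  have gsub : ∀ W Z, Good W → Good Z → Good (W - Z) := by
    rintro W Z ⟨a1, a2, a3⟩ ⟨b1, b2, b3⟩
    refine ⟨fun b hb => ?_, fun κ hκ => V.sub_mem (a2 _ hκ) (b2 _ hκ), fun κ hκ => ?_⟩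
    · rw [sub_mul, mul_sub, a1 b hb, b1 b hb]
    · rw [star_sub]
      exact V.sub_mem (a3 _ hκ) (b3 _ hκ)
  have hLV : ∀ a ∈ P, ∀ κ ∈ V, Lm a κ ∈ V := by
    intro a ha
    refine ImS_induction P h.one.summable (p := fun κ => Lm a κ ∈ V) ?_ fun b hb => ?_
    · exact (isClosed_ImS P h.one.summable).preimage (Lm a).continuous
    · rw [Lm_emb]
      exact emb_mem_ImS P _ (mul_mem ha hb)
  have gL : ∀ a ∈ P, Good (Lm a) := by
    intro a ha
    refine ⟨fun b hb => ?_, hLV a ha, fun κ hκ => ?_⟩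
    · refine op_ext P h.one.summable _ _ (fun c hc => ?_) (fun κ hκ => ?_) (fun κ hκ => ?_)
      · change Lm a (R b hb (E c)) = R b hb (Lm a (E c))
        rw [hR1 b hb c hc, hE, Lm_emb, Lm_emb, hR1 b hb _ (mul_mem ha hc), mul_assoc]
      · change Lm a (R b hb κ) = 0
        rw [hR2 b hb κ hκ, map_zero]
      · change R b hb (Lm a κ) = 0
        refine hR2 b hb _ fun c hc => ?_
        have e1 : ⟪E c, Lm a κ⟫_ℂ = ⟪star (Lm a) (E c), κ⟫_ℂ := by
          rw [ContinuousLinearMap.star_eq_adjoint, ContinuousLinearMap.adjoint_inner_left]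
        rw [e1, ← Lm_star, hE, Lm_emb]
        exact hκ _ (mul_mem (star_mem ha) hc)
    · rw [← Lm_star]
      exact hLV _ (star_mem ha) κ hκ
  have h1P : (1 : H →L[ℂ] H) ∈ P := one_mem P
  have hE1 : E 1 ∈ V := emb_mem_ImS P _ h1P
  have gJ : ∀ W, Good W → ‖W (E 1)‖ = ‖star W (E 1)‖ := by
    rintro W ⟨a1, a2, a3⟩
    refine (hJNM H P ξ h W (fun a ha b hb c hc => ?_) ((mem_ImS P _ _).1 (a2 _ hE1))
      ((mem_ImS P _ _).1 (a3 _ hE1))).1
    have e1 : W (E (a * b)) = R b hb (W (E a)) := by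
      rw [← hR1 b hb a ha]
      exact congrArg (fun f : KH H →L[ℂ] KH H => f (E a)) (a1 b hb)
    change ⟪W (E (a * b)), E c⟫_ℂ = ⟪W (E a), E (c * star b)⟫_ℂ
    rw [e1]
    exact L3 b hb c hc _ (a2 _ (emb_mem_ImS P _ ha))
  have gS : ∀ D Z, Good D → Good Z → star D = D → ‖D (Z (E 1))‖ ≤ ‖Z‖ * ‖D (E 1)‖ := by
    intro D Z hD hZ hDs
    have e1 := gJ _ (gmul D Z hD hZ)
    rw [star_mul, hDs] at e1
    calc ‖D (Z (E 1))‖ = ‖(star Z * D) (E 1)‖ := e1
      _ = ‖star Z (D (E 1))‖ := rfl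
      _ ≤ ‖star Z‖ * ‖D (E 1)‖ := ContinuousLinearMap.le_opNorm _ _
      _ = ‖Z‖ * ‖D (E 1)‖ := by
          rw [ContinuousLinearMap.star_eq_adjoint, LinearIsometryEquiv.norm_map]
  have hTX : T = (2 : ℂ) • (X * RR) := by
    calc T = T * ((1 + X * X) * RR) := by rw [hr2, mul_one]
      _ = (T * (1 + X * X)) * RR := by rw [mul_assoc]
      _ = (2 : ℂ) • (X * RR) := by rw [hX2, smul_mul_assoc]
  -- approximation
  have hap : ∀ ε : ℝ, 0 < ε → ∃ e ∈ P, ‖e‖ ≤ 1 ∧ ‖E e - T (E 1)‖ ≤ 3 * ε := by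
    intro ε hε
    obtain ⟨_, ⟨a0, ha0, rfl⟩, hd⟩ := Metric.mem_closure_iff.1 ((mem_ImS P _ _).1 (hXV (E 1))) ε hε
    rw [dist_comm, dist_eq_norm] at hd
    have hd2 : ‖E (star a0) - X (E 1)‖ < ε := by
      have e1 := gJ _ (gsub _ _ (gL a0 ha0) gX)
      rw [star_sub, ← Lm_star, hX1] at e1
      have e2 : (Lm a0 - X) (E 1) = E a0 - X (E 1) := by
        change Lm a0 (E 1) - X (E 1) = _
        rw [hE, Lm_emb, mul_one]
      have e3 : (Lm (star a0) - X) (E 1) = E (star a0) - X (E 1) := by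
        change Lm (star a0) (E 1) - X (E 1) = _
        rw [hE, Lm_emb, mul_one]
      rw [e2, e3] at e1
      rw [← e1]
      exact hd
    set a : H →L[ℂ] H := (1 / 2 : ℂ) • (a0 + star a0) with ha
    have haP : a ∈ P := smul_mem' P _ (add_mem ha0 (star_mem ha0))
    have has : star a = a := by
      rw [ha, star_smul, star_add, star_star, add_comm]
      congr 1
      simp
    have hda : ‖E a - X (E 1)‖ ≤ ε := by
      have e1 : E a - X (E 1) = (1 / 2 : ℂ) • ((E a0 - X (E 1)) + (E (star a0) - X (E 1))) := by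
        rw [ha, map_smul, map_add]
        module
      rw [e1, norm_smul]
      have := norm_add_le (E a0 - X (E 1)) (E (star a0) - X (E 1))
      have e2 : ‖(1 / 2 : ℂ)‖ = 1 / 2 := by norm_num
      rw [e2]
      have hd' : ‖E a0 - X (E 1)‖ < ε := hd
      linarith
    obtain ⟨r, s0, s1, s2, s3, s4, s5, s6, -⟩ := hRSV H a has
    have hrP : r ∈ P := mem_of_comm fun y hy => (s6 y (hy a haP).symm).symm
    refine ⟨(2 : ℂ) • (r * a), smul_mem' P _ (mul_mem hrP haP), ?_, ?_⟩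
    · rw [norm_smul]
      have e2 : ‖(2 : ℂ)‖ = 2 := by norm_num
      rw [e2]
      linarith
    set D := Lm a - X with hD
    have gD : Good D := gsub _ _ (gL a haP) gX
    have hDs : star D = D := by rw [hD, star_sub, ← Lm_star, has, hX1]
    have hD1 : ‖D (E 1)‖ ≤ ε := by
      have e1 : D (E 1) = E a - X (E 1) := by
        change Lm a (E 1) - X (E 1) = _
        rw [hE, Lm_emb, mul_one]
      rw [e1]
      exact hda
    have k1 : Lm r * (1 + Lm a * Lm a) = 1 := by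
      rw [← Lm_one, ← Lm_mul, ← Lm_add, ← Lm_mul, s1]
    have key : (2 : ℂ) • (Lm r * Lm a) - T =
        (2 : ℂ) • (Lm r * (D * RR)) - (2 : ℂ) • ((Lm r * Lm a) * (D * (X * RR))) := by
      have e1 : Lm r * (D * RR) - (Lm r * Lm a) * (D * (X * RR)) =
          (Lm r * Lm a) * ((1 + X * X) * RR) - (Lm r * (1 + Lm a * Lm a)) * (X * RR) := by
        rw [hD]
        exact ring_aux _ _ _ _
      rw [hr2, k1, mul_one, one_mul] at e1
      rw [← smul_sub, e1, smul_sub, ← hTX]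
    have e2 : E ((2 : ℂ) • (r * a)) - T (E 1) =
        (2 : ℂ) • Lm r (D (RR (E 1))) - (2 : ℂ) • (Lm r * Lm a) (D ((X * RR) (E 1))) := by
      have e3 := congrArg (fun f : KH H →L[ℂ] KH H => f (E 1)) key
      have e4 : E ((2 : ℂ) • (r * a)) = ((2 : ℂ) • (Lm r * Lm a)) (E 1) := by
        rw [← Lm_mul, ← Lm_smul, hE, Lm_emb, mul_one]
      rw [e4]
      exact e3
    rw [e2]
    have b1 : ‖Lm r (D (RR (E 1)))‖ ≤ ε := by
      calc ‖Lm r (D (RR (E 1)))‖ ≤ ‖Lm r‖ * ‖D (RR (E 1))‖ := ContinuousLinearMap.le_opNorm _ _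
        _ ≤ 1 * ‖D (RR (E 1))‖ := by
            gcongr
            exact (norm_Lm_le r).trans s4
        _ ≤ 1 * (‖RR‖ * ‖D (E 1)‖) := by
            gcongr
            exact gS D RR gD gR hDs
        _ ≤ 1 * (1 * ε) := by gcongr
        _ = ε := by ring
    have b2 : ‖(Lm r * Lm a) (D ((X * RR) (E 1)))‖ ≤ ε / 4 := by
      calc ‖(Lm r * Lm a) (D ((X * RR) (E 1)))‖
          ≤ ‖Lm r * Lm a‖ * ‖D ((X * RR) (E 1))‖ := ContinuousLinearMap.le_opNorm _ _
        _ ≤ (1 / 2) * ‖D ((X * RR) (E 1))‖ := by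
            gcongr
            rw [← Lm_mul]
            exact (norm_Lm_le _).trans s5
        _ ≤ (1 / 2) * (‖X * RR‖ * ‖D (E 1)‖) := by
            gcongr
            exact gS D (X * RR) gD (gmul _ _ gX gR) hDs
        _ ≤ (1 / 2) * ((1 / 2) * ε) := by
            gcongr
            rw [hr3]
            exact hr5
        _ = ε / 4 := by ring
    calc _ ≤ ‖(2 : ℂ) • Lm r (D (RR (E 1)))‖ + ‖(2 : ℂ) • (Lm r * Lm a) (D ((X * RR) (E 1)))‖ :=
          norm_sub_le _ _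
      _ ≤ 2 * ε + 2 * (ε / 4) := by
          rw [norm_smul, norm_smul]
          have e5 : ‖(2 : ℂ)‖ = 2 := by norm_num
          rw [e5]
          gcongr
      _ ≤ 3 * ε := by linarith
  choose! ek hk1 hk2 hk3 using fun n : ℕ => hap (1 / 3 * (1 / ((n : ℝ) + 1))) (by positivity)
  have hk3' : ∀ n, ‖E (ek n) - T (E 1)‖ ≤ 1 / ((n : ℝ) + 1) := fun n => by
    have := hk3 n
    linarith
  obtain ⟨e, heP, he1, he2⟩ := hCMP H P ξ h ek 1 hk1 hk2 (by
    intro ε hε
    obtain ⟨K, hK⟩ := exists_nat_one_div_lt (half_pos hε)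
    refine ⟨K, fun j hj k hk => ?_⟩
    have a1 : 1 / ((j : ℝ) + 1) ≤ 1 / ((K : ℝ) + 1) := by gcongr
    have a2 : 1 / ((k : ℝ) + 1) ≤ 1 / ((K : ℝ) + 1) := by gcongr
    have a3 : n2 ξ (ek j - ek k) = ‖(E (ek j) - T (E 1)) - (E (ek k) - T (E 1))‖ := by
      rw [sub_sub_sub_cancel_right, ← map_sub, hE, norm_emb]
    rw [a3]
    calc _ ≤ ‖E (ek j) - T (E 1)‖ + ‖E (ek k) - T (E 1)‖ := norm_sub_le _ _
      _ < ε := by linarith [hk3' j, hk3' k])
  have hlim1 : Tendsto (fun n => E (ek n)) atTop (𝓝 (T (E 1))) := by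
    rw [tendsto_iff_norm_sub_tendsto_zero]
    exact squeeze_zero (fun n => norm_nonneg _) hk3' tendsto_one_div_add_atTop_nhds_zero_nat
  have hlim2 : Tendsto (fun n => E (ek n)) atTop (𝓝 (E e)) := by
    rw [tendsto_iff_norm_sub_tendsto_zero]
    refine he2.congr fun n => ?_
    rw [← map_sub, hE, norm_emb]
  have hEe : E e = T (E 1) := tendsto_nhds_unique hlim2 hlim1
  refine ⟨e, heP, he1, fun a ha => ?_⟩
  have c1 : E a = R a ha (E 1) := by
    rw [hR1 a ha 1 h1P, one_mul]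
  have c2 : T (R a ha (E 1)) = R a ha (T (E 1)) :=
    congrArg (fun f : KH H →L[ℂ] KH H => f (E 1)) (hTR a ha)
  rw [c1, c2, ← hEe, hR1 a ha e heP]

end Pool.Agent.H39.IX
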