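import Pool.Agent.H39.IX.Defs

/-!
# MP_323167_an: index 2 subfactors containing a regular hyperfinite algebra. Targets.

Every `T_X` is proved in a module of its own. Page: H39_IND2.md.
-/

set_option autoImplicit false

open scoped InnerProductSpace Topology
open Filter Finset Pool.Agent.H80.G2

namespace Pool.Agent.H39.IX

/-! ### outputs of the averaging half (helper13) -/

/-- F. The average exists. -/
def T_F : Prop :=
  ∀ (H : Type) [NormedAddCommGroup H] [InnerProductSpace ℂ H] [CompleteSpace H]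
    (G : ℕ → Finset (H →L[ℂ] H)), GrpSeq G → ∃ F, IsF G F

/-- INT. Intertwining unitary elements. -/
def T_INT : Prop :=
  ∀ (H : Type) [NormedAddCommGroup H] [InnerProductSpace ℂ H] [CompleteSpace H]
    (N : VonNeumannAlgebra H) (G : ℕ → Finset (H →L[ℂ] H)), GrpSeq G →
    ∀ (al be : (H →L[ℂ] H) → (H →L[ℂ] H)) (U u T : H →L[ℂ] H) (d : ℝ), UH U → UH u →
    (∀ g, InG G g → al g = U * g * star U) →
    (∀ g, InG G g → al g ∈ N ∧ be g ∈ N ∧ u * al g = be g * u) → T ∈ N → ‖T - u‖ ≤ d →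
    d ≤ 1 / 10 → ∃ v, Uni N v ∧ ‖v - u‖ ≤ 4 * d ∧ ∀ g, InG G g → v * al g = be g * v

/-- KAZ. A sequence of groups near `N` is conjugated into `N`. -/
def T_KAZ : Prop :=
  ∀ (H : Type) [NormedAddCommGroup H] [InnerProductSpace ℂ H] [CompleteSpace H]
    (N : VonNeumannAlgebra H) (G : ℕ → Finset (H →L[ℂ] H)), GrpSeq G → ∀ d : ℝ, 0 ≤ d →
    d ≤ 1 / 2000 → (∀ g, InG G g → ∃ y ∈ N, ‖g - y‖ ≤ d) →
    ∃ s, UH s ∧ ‖s - 1‖ ≤ 300 * d ∧ ∀ g, InG G g → s * g * star s ∈ N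

/-! ### von Neumann algebras -/

/-- GEN. The von Neumann algebra generated by a set. -/
def T_GEN : Prop :=
  ∀ (H : Type) [NormedAddCommGroup H] [InnerProductSpace ℂ H] [CompleteSpace H]
    (S : Set (H →L[ℂ] H)), (∀ x ∈ S, star x ∈ S) → ∃ Q : VonNeumannAlgebra H,
    ∀ x, x ∈ Q ↔ ∀ y : H →L[ℂ] H, (∀ s ∈ S, s * y = y * s) → x * y = y * x

/-- RCM. The relative commutant. -/
def T_RCM : Prop :=
  ∀ (H : Type) [NormedAddCommGroup H] [InnerProductSpace ℂ H] [CompleteSpace H]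
    (N : VonNeumannAlgebra H) (G : ℕ → Finset (H →L[ℂ] H)), GrpSeq G →
    ∃ Q : VonNeumannAlgebra H, ∀ x, x ∈ Q ↔ x ∈ N ∧ Com G x

/-- CNV. Conjugation by a unitary operator. -/
def T_CNV : Prop :=
  ∀ (H : Type) [NormedAddCommGroup H] [InnerProductSpace ℂ H] [CompleteSpace H]
    (N : VonNeumannAlgebra H) (s : H →L[ℂ] H), UH s →
    ∃ Q : VonNeumannAlgebra H, ∀ x, x ∈ Q ↔ s * x * star s ∈ N

/-! ### density and conditional expectations -/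

/-- DNY. Density in the 2-norm. -/
def T_DNY : Prop :=
  ∀ (H : Type) [NormedAddCommGroup H] [InnerProductSpace ℂ H] [CompleteSpace H]
    (N : VonNeumannAlgebra H) (ξ : ℕ → H), IsTr N ξ → ∀ S : Set (H →L[ℂ] H),
    (∀ x ∈ S, x ∈ N) → (∀ x ∈ S, star x ∈ S) → (∀ x ∈ S, ∀ y ∈ S, x * y ∈ S) →
    (1 : H →L[ℂ] H) ∈ S → ∀ x : H →L[ℂ] H,
    (∀ y : H →L[ℂ] H, (∀ s ∈ S, s * y = y * s) → x * y = y * x) → ∀ δ : ℝ, 0 < δ →
    ∃ s ∈ Submodule.span ℂ S, n2 ξ (x - s) < δ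

/-- OPN. The operator norm from the 2-norm. -/
def T_OPN : Prop :=
  ∀ (H : Type) [NormedAddCommGroup H] [InnerProductSpace ℂ H] [CompleteSpace H]
    (N : VonNeumannAlgebra H) (ξ : ℕ → H), IsTr N ξ → ∀ x ∈ N, ∀ C : ℝ,
    (∀ b ∈ N, n2 ξ (x * b) ≤ C * n2 ξ b) → ‖x‖ ≤ C

/-- RSV. The element `(1 + a²)⁻¹`. -/
def T_RSV : Prop :=
  ∀ (H : Type) [NormedAddCommGroup H] [InnerProductSpace ℂ H] [CompleteSpace H]
    (a : H →L[ℂ] H), star a = a → ∃ r : H →L[ℂ] H, star r = r ∧ r * (1 + a * a) = 1 ∧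
    (1 + a * a) * r = 1 ∧ a * r = r * a ∧ ‖r‖ ≤ 1 ∧ ‖r * a‖ ≤ 1 / 2 ∧
    (∀ y : H →L[ℂ] H, y * a = a * y → y * r = r * y) ∧
    ∀ S : StarSubalgebra ℂ (H →L[ℂ] H), IsClosed (S : Set (H →L[ℂ] H)) → a ∈ S → r ∈ S

/-- CAY. Every self-adjoint contraction is of the form `2 X (1 + X²)⁻¹`. -/
def T_CAY : Prop :=
  ∀ (H : Type) [NormedAddCommGroup H] [InnerProductSpace ℂ H] [CompleteSpace H]
    (T : H →L[ℂ] H), star T = T → ‖T‖ ≤ 1 → ∃ X : H →L[ℂ] H, star X = X ∧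
    T * (1 + X * X) = (2 : ℂ) • X ∧ ∀ y : H →L[ℂ] H, y * T = T * y → y * X = X * y

/-- KAP. Density of the unit ball (Kaplansky). -/
def T_KAP : Prop :=
  ∀ (H : Type) [NormedAddCommGroup H] [InnerProductSpace ℂ H] [CompleteSpace H]
    (N : VonNeumannAlgebra H) (ξ : ℕ → H), IsTr N ξ → ∀ S : Set (H →L[ℂ] H),
    (∀ x ∈ S, x ∈ N) → (∀ x ∈ S, star x ∈ S) → (∀ x ∈ S, ∀ y ∈ S, x * y ∈ S) →
    (1 : H →L[ℂ] H) ∈ S → ∀ x ∈ N, star x = x → ‖x‖ ≤ 1 →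
    (∀ y : H →L[ℂ] H, (∀ s ∈ S, s * y = y * s) → x * y = y * x) → ∀ δ : ℝ, 0 < δ →
    ∃ s ∈ closure (Submodule.span ℂ S : Set (H →L[ℂ] H)), s ∈ N ∧ star s = s ∧ ‖s‖ ≤ 1 ∧
      n2 ξ (x - s) < δ

/-- the closure of the image of `P` in `l²(H)` -/
def Img {H : Type} [NormedAddCommGroup H] [InnerProductSpace ℂ H] [CompleteSpace H]
    (P : VonNeumannAlgebra H) {ξ : ℕ → H} (h : Summable fun n => ‖ξ n‖ ^ 2) :
    Set (lp (fun _ : ℕ => H) 2) := closure {κ | ∃ a ∈ P, κ = emb h a}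

/-- RMO. Right multiplications. -/
def T_RMO : Prop :=
  ∀ (H : Type) [NormedAddCommGroup H] [InnerProductSpace ℂ H] [CompleteSpace H]
    (P : VonNeumannAlgebra H) (ξ : ℕ → H) (h : IsTr P ξ), ∀ b ∈ P,
    ∃ R : lp (fun _ : ℕ => H) 2 →L[ℂ] lp (fun _ : ℕ => H) 2,
      (∀ a ∈ P, R (emb h.one.summable a) = emb h.one.summable (a * b)) ∧
      (∀ κ, (∀ a ∈ P, ⟪emb h.one.summable a, κ⟫_ℂ = 0) → R κ = 0) ∧
      ∀ κ, R κ ∈ Img P h.one.summable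

/-- JNM. The vectors `W 1` and `W* 1`, for `W` commuting with the right multiplications. -/
def T_JNM : Prop :=
  ∀ (H : Type) [NormedAddCommGroup H] [InnerProductSpace ℂ H] [CompleteSpace H]
    (P : VonNeumannAlgebra H) (ξ : ℕ → H) (h : IsTr P ξ)
    (W : lp (fun _ : ℕ => H) 2 →L[ℂ] lp (fun _ : ℕ => H) 2),
    (∀ a ∈ P, ∀ b ∈ P, ∀ c ∈ P,
      ⟪W (emb h.one.summable (a * b)), emb h.one.summable c⟫_ℂ =
        ⟪W (emb h.one.summable a), emb h.one.summable (c * star b)⟫_ℂ) →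
    W (emb h.one.summable 1) ∈ Img P h.one.summable →
    star W (emb h.one.summable 1) ∈ Img P h.one.summable →
    ‖W (emb h.one.summable 1)‖ = ‖star W (emb h.one.summable 1)‖ ∧
    ∀ c ∈ P, ⟪W (emb h.one.summable 1), emb h.one.summable c⟫_ℂ =
      ⟪emb h.one.summable (star c), star W (emb h.one.summable 1)⟫_ℂ

/-- LBB. Operators which commute with the right multiplications are left multiplications. -/
def T_LBB : Prop :=
  ∀ (H : Type) [NormedAddCommGroup H] [InnerProductSpace ℂ H] [CompleteSpace H]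
    (P : VonNeumannAlgebra H) (ξ : ℕ → H) (h : IsTr P ξ)
    (T : lp (fun _ : ℕ => H) 2 →L[ℂ] lp (fun _ : ℕ => H) 2), star T = T → ‖T‖ ≤ 1 →
    (∀ κ, T κ ∈ Img P h.one.summable) →
    (∀ a ∈ P, ∀ b ∈ P, ∀ c ∈ P,
      ⟪T (emb h.one.summable (a * b)), emb h.one.summable c⟫_ℂ =
        ⟪T (emb h.one.summable a), emb h.one.summable (c * star b)⟫_ℂ) →
    ∃ e ∈ P, ‖e‖ ≤ 1 ∧ ∀ a ∈ P, T (emb h.one.summable a) = emb h.one.summable (e * a)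

/-- CE. Conditional expectations. -/
def T_CE : Prop :=
  ∀ (H : Type) [NormedAddCommGroup H] [InnerProductSpace ℂ H] [CompleteSpace H]
    (N P : VonNeumannAlgebra H) (ξ : ℕ → H), IsTr N ξ → (∀ x ∈ P, x ∈ N) →
    ∀ x ∈ N, ∃ e ∈ P, ‖e‖ ≤ ‖x‖ ∧ ∀ p ∈ P, tr ξ (p * (x - e)) = 0

/-- SCD. Distance to the scalars. -/
def T_SCD : Prop :=
  ∀ (H : Type) [NormedAddCommGroup H] [InnerProductSpace ℂ H] [CompleteSpace H]
    (P : VonNeumannAlgebra H) (ξ : ℕ → H), IsTr P ξ → IsFac P → ∀ a ∈ P, ∀ r : ℝ,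
    (∀ u, Uni P u → ‖u * a * star u - a‖ ≤ r) → ∃ c : ℂ, ‖a - c • (1 : H →L[ℂ] H)‖ ≤ r

/-- WKC. Weak compactness of the unit ball. -/
def T_WKC : Prop :=
  ∀ (H : Type) [NormedAddCommGroup H] [InnerProductSpace ℂ H] [CompleteSpace H]
    (N P : VonNeumannAlgebra H) (ξ : ℕ → H), IsTr N ξ → ∀ x ∈ N, ∀ c : ℝ,
    (∀ δ : ℝ, 0 < δ → ∃ s ∈ N, ‖s‖ ≤ 1 ∧ n2 ξ (x - s) < δ ∧ ∃ a ∈ P, ‖s - a‖ ≤ c) →
    ∃ a ∈ P, ‖x - a‖ ≤ c

/-! ### index 2 subfactors -/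

/-- IDX. Facts on index 2 subfactors. -/
def T_IDX : Prop :=
  ∀ (H : Type) [NormedAddCommGroup H] [InnerProductSpace ℂ H] [CompleteSpace H]
    (M P : VonNeumannAlgebra H) (w : H →L[ℂ] H) (ξ : ℕ → H), IsTr M ξ → Idx M P w →
    IsTr P ξ ∧ w * w ∈ P ∧ (∀ x ∈ P, star w * x * w ∈ P) ∧
    (∀ a ∈ P, ∀ z ∈ P, ‖a‖ ≤ ‖a + z * w‖ ∧ ‖z‖ ≤ ‖a + z * w‖) ∧
    ∀ a ∈ P, ∀ z ∈ P, tr ξ (star a * (z * w)) = 0 ∧ tr ξ (star (z * w) * a) = 0

/-- NPR. The normalisers are groups. -/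
def T_NPR : Prop :=
  ∀ (H : Type) [NormedAddCommGroup H] [InnerProductSpace ℂ H] [CompleteSpace H]
    (M N P A : VonNeumannAlgebra H) (w : H →L[ℂ] H) (G : ℕ → Finset (H →L[ℂ] H))
    (ξ ζ : ℕ → H), Sit M N P A w G ξ ζ →
    (Nor P A 1 ∧ (∀ u, Nor P A u → Nor P A (star u)) ∧
      ∀ u v, Nor P A u → Nor P A v → Nor P A (u * v)) ∧
    (VN N P A G 1 ∧ (∀ u, VN N P A G u → VN N P A G (star u)) ∧
      ∀ u v, VN N P A G u → VN N P A G v → VN N P A G (u * v)) ∧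
    (∀ v u, Nor P A u → (∀ g, InG G g → v * g * star v = u * g * star u) → UH v →
      Com G (star u * v)) ∧
    (∀ v, Uni N v → Com G v → VN N P A G v) ∧
    ∀ u k, Nor P A u → Com G k → Com G (star u * k * u)

/-- QPN. The algebra generated by the elements `VN`. -/
def T_QPN : Prop :=
  ∀ (H : Type) [NormedAddCommGroup H] [InnerProductSpace ℂ H] [CompleteSpace H]
    (M N P A Q : VonNeumannAlgebra H) (w : H →L[ℂ] H) (G : ℕ → Finset (H →L[ℂ] H))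
    (ξ ζ : ℕ → H), Sit M N P A w G ξ ζ → IsPN N P A Q G →
    (∀ v, VN N P A G v → v ∈ Q) ∧ (∀ x ∈ Q, x ∈ N) ∧ ∀ x ∈ N, Com G x → x ∈ Q

/-- VEX. Every element of the normaliser has a companion in `N`. -/
def T_VEX : Prop :=
  ∀ (H : Type) [NormedAddCommGroup H] [InnerProductSpace ℂ H] [CompleteSpace H]
    (M N P A : VonNeumannAlgebra H) (w : H →L[ℂ] H) (G : ℕ → Finset (H →L[ℂ] H))
    (ξ ζ : ℕ → H), Sit M N P A w G ξ ζ → ∀ u, Nor P A u →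
    ∃ v, VN N P A G v ∧ ∀ g, InG G g → v * g * star v = u * g * star u

/-- S4. Elements orthogonal to `Q` are near elements `a + z w` with small `a`. -/
def T_S4 : Prop :=
  ∀ (H : Type) [NormedAddCommGroup H] [InnerProductSpace ℂ H] [CompleteSpace H]
    (M N P A Q : VonNeumannAlgebra H) (w : H →L[ℂ] H) (G : ℕ → Finset (H →L[ℂ] H))
    (ξ ζ : ℕ → H), Sit M N P A w G ξ ζ → IsPN N P A Q G → ∀ y ∈ N,
    (∀ q ∈ Q, tr ζ (q * y) = 0) → ∀ a ∈ P, ∀ z ∈ P, ∀ δ : ℝ, ‖a + z * w - y‖ ≤ δ → ‖a‖ ≤ δ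

/-- S5. Elements of the span of `VN` are near elements `a + z w` with small `z`. -/
def T_S5 : Prop :=
  ∀ (H : Type) [NormedAddCommGroup H] [InnerProductSpace ℂ H] [CompleteSpace H]
    (M N P A : VonNeumannAlgebra H) (w : H →L[ℂ] H) (G : ℕ → Finset (H →L[ℂ] H))
    (ξ ζ : ℕ → H), Sit M N P A w G ξ ζ →
    ∀ y ∈ closure (Submodule.span ℂ {v | VN N P A G v} : Set (H →L[ℂ] H)),
    ∀ a ∈ P, ∀ z ∈ P, ∀ δ : ℝ, ‖a + z * w - y‖ ≤ δ → ‖z‖ ≤ δ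

/-- SQP. `Q` is near `P`. -/
def T_SQP : Prop :=
  ∀ (H : Type) [NormedAddCommGroup H] [InnerProductSpace ℂ H] [CompleteSpace H]
    (M N P A Q : VonNeumannAlgebra H) (w : H →L[ℂ] H) (G : ℕ → Finset (H →L[ℂ] H))
    (ξ ζ : ℕ → H), Sit M N P A w G ξ ζ → IsPN N P A Q G →
    ∀ y ∈ Q, ∃ a ∈ P, ‖y - a‖ ≤ 4 / 1000000 * ‖y‖

/-- SPQ. `P` is near `Q`. -/
def T_SPQ : Prop :=
  ∀ (H : Type) [NormedAddCommGroup H] [InnerProductSpace ℂ H] [CompleteSpace H]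
    (M N P A Q : VonNeumannAlgebra H) (w : H →L[ℂ] H) (G : ℕ → Finset (H →L[ℂ] H))
    (ξ ζ : ℕ → H), Sit M N P A w G ξ ζ → IsPN N P A Q G →
    (∀ y ∈ Q, ∃ a ∈ P, ‖y - a‖ ≤ 4 / 1000000 * ‖y‖) →
    ∀ x ∈ P, ∃ y ∈ Q, ‖x - y‖ ≤ 20 / 1000000 * ‖x‖

/-- FCN. `Q` is a factor. -/
def T_FCN : Prop :=
  ∀ (H : Type) [NormedAddCommGroup H] [InnerProductSpace ℂ H] [CompleteSpace H]
    (P Q : VonNeumannAlgebra H) (ξ : ℕ → H), IsTr P ξ → IsFac P → Cls P Q → IsFac Q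

/-- W2X. A unitary element of `N` which acts on the groups almost as `w`. -/
def T_W2X : Prop :=
  ∀ (H : Type) [NormedAddCommGroup H] [InnerProductSpace ℂ H] [CompleteSpace H]
    (M N P A Q : VonNeumannAlgebra H) (w : H →L[ℂ] H) (G : ℕ → Finset (H →L[ℂ] H))
    (ξ ζ : ℕ → H), Sit M N P A w G ξ ζ → IsPN N P A Q G → Cls P Q →
    ∃ s w₂, W2 N Q w G s w₂

/-- REL. The commutant in `N` of the conjugated groups is in `Q`. -/
def T_REL : Prop :=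
  ∀ (H : Type) [NormedAddCommGroup H] [InnerProductSpace ℂ H] [CompleteSpace H]
    (M N P A Q : VonNeumannAlgebra H) (w s w₂ : H →L[ℂ] H) (G : ℕ → Finset (H →L[ℂ] H))
    (ξ ζ : ℕ → H), Sit M N P A w G ξ ζ → IsPN N P A Q G → Cls P Q → W2 N Q w G s w₂ →
    ∀ y ∈ N, (∀ g, InG G g → (s * (w * g * star w) * star s) * y =
      y * (s * (w * g * star w) * star s)) → y ∈ Q

/-- NW2. `w₂` normalises `Q`. -/
def T_NW2 : Prop :=
  ∀ (H : Type) [NormedAddCommGroup H] [InnerProductSpace ℂ H] [CompleteSpace H]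
    (M N P A Q : VonNeumannAlgebra H) (w s w₂ : H →L[ℂ] H) (G : ℕ → Finset (H →L[ℂ] H))
    (ξ ζ : ℕ → H), Sit M N P A w G ξ ζ → IsPN N P A Q G → Cls P Q → W2 N Q w G s w₂ →
    ∀ x ∈ Q, w₂ * x * star w₂ ∈ Q

/-- ORN. `w₂` is orthogonal to `Q`. -/
def T_ORN : Prop :=
  ∀ (H : Type) [NormedAddCommGroup H] [InnerProductSpace ℂ H] [CompleteSpace H]
    (M N P A Q : VonNeumannAlgebra H) (w s w₂ : H →L[ℂ] H) (G : ℕ → Finset (H →L[ℂ] H))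
    (ξ ζ : ℕ → H), Sit M N P A w G ξ ζ → IsPN N P A Q G → Cls P Q → IsFac Q →
    W2 N Q w G s w₂ → (∀ x ∈ Q, w₂ * x * star w₂ ∈ Q) →
    ∀ η : ℕ → H, IsTr N η → ∀ x ∈ Q, tr η (x * w₂) = 0

/-- FIN. `N = Q + Q w₂`. -/
def T_FIN : Prop :=
  ∀ (H : Type) [NormedAddCommGroup H] [InnerProductSpace ℂ H] [CompleteSpace H]
    (M N P A Q : VonNeumannAlgebra H) (w s w₂ : H →L[ℂ] H) (G : ℕ → Finset (H →L[ℂ] H))
    (ξ ζ : ℕ → H), Sit M N P A w G ξ ζ → IsPN N P A Q G → Cls P Q → W2 N Q w G s w₂ →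
    (∀ x ∈ Q, w₂ * x * star w₂ ∈ Q) → (∀ x ∈ Q, tr ζ (x * w₂) = 0) →
    ∀ x ∈ N, ∃ y ∈ Q, ∃ z ∈ Q, x = y + z * w₂

/-- SIT. The theorem in the situation `Sit`. -/
def T_SIT : Prop :=
  ∀ (H : Type) [NormedAddCommGroup H] [InnerProductSpace ℂ H] [CompleteSpace H]
    (M N P A : VonNeumannAlgebra H) (w : H →L[ℂ] H) (G : ℕ → Finset (H →L[ℂ] H))
    (ξ ζ : ℕ → H), Sit M N P A w G ξ ζ → Ind2 N

/-- CNT. Transport by a unitary operator. -/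
def T_CNT : Prop :=
  ∀ (H : Type) [NormedAddCommGroup H] [InnerProductSpace ℂ H] [CompleteSpace H]
    (N Q : VonNeumannAlgebra H) (s : H →L[ℂ] H), UH s → (∀ x, x ∈ Q ↔ s * x * star s ∈ N) →
    (∀ ζ : ℕ → H, IsTr N ζ → IsTr Q fun n => star s (ζ n)) ∧ (Ind2 Q → Ind2 N)

/-- The theorem. -/
def T_MAIN : Prop :=
  ∀ (H : Type) [NormedAddCommGroup H] [InnerProductSpace ℂ H] [CompleteSpace H]
    (M N P A : VonNeumannAlgebra H) (w : H →L[ℂ] H), IsII1 M → IsII1 N → Idx M P w →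
    (∀ x ∈ A, x ∈ P) → HF A → Reg P A → (∀ x ∈ M, (∀ a ∈ A, a * x = x * a) → x ∈ P) →
    Metric.hausdorffDist (bal M) (bal N) < 1 / 1000000000 → Ind2 N

end Pool.Agent.H39.IX
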