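import Pool.Agent.H39.IX.Targets

/-!
# MP_323167_an: targets of the averaging half

Row WLB: weak limits along an ultrafilter. Row MN: means on the union of an increasing sequence of
finite groups. Row POL: polar parts of elements near a unitary operator. Rows KZA, KZB: Kazhdan's
iteration. Rows F, INT, KAZ (in `Targets.lean`) follow.
-/

set_option autoImplicit false

open scoped InnerProductSpace Topology
open Filter Finset Pool.Agent.H80.G2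

namespace Pool.Agent.H39.IX

/-- WLB. Weak limits along an ultrafilter. -/
def T_WLB : Prop :=
  ∀ (H : Type) [NormedAddCommGroup H] [InnerProductSpace ℂ H] [CompleteSpace H]
    (U : Ultrafilter ℕ) (x : ℕ → (H →L[ℂ] H)) (C : ℝ), (∀ i, ‖x i‖ ≤ C) →
    ∃ z : H →L[ℂ] H, ‖z‖ ≤ C ∧
      (∀ η ζ : H, Tendsto (fun i => ⟪η, x i ζ⟫_ℂ) (U : Filter ℕ) (𝓝 ⟪η, z ζ⟫_ℂ)) ∧
      (∀ N : VonNeumannAlgebra H, (∀ i, x i ∈ N) → z ∈ N) ∧
      ∀ ξ : ℕ → H, (Summable fun n => ‖ξ n‖ ^ 2) →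
        Tendsto (fun i => tr ξ (x i)) (U : Filter ℕ) (𝓝 (tr ξ z))

variable {H : Type} [NormedAddCommGroup H] [InnerProductSpace ℂ H] [CompleteSpace H]

/-- `φ` is bounded by `C` on the groups -/
def Bd (G : ℕ → Finset (H →L[ℂ] H)) (φ : (H →L[ℂ] H) → (H →L[ℂ] H)) (C : ℝ) : Prop :=
  ∀ g, InG G g → ‖φ g‖ ≤ C

/-- invariant means with values in `B(H)` -/
structure IsMn (G : ℕ → Finset (H →L[ℂ] H))
    (m : ((H →L[ℂ] H) → (H →L[ℂ] H)) → (H →L[ℂ] H)) : Prop where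
  add : ∀ φ ψ C D, Bd G φ C → Bd G ψ D → m (fun g => φ g + ψ g) = m φ + m ψ
  mull : ∀ φ C, Bd G φ C → ∀ a, m (fun g => a * φ g) = a * m φ
  mulr : ∀ φ C, Bd G φ C → ∀ a, m (fun g => φ g * a) = m φ * a
  star : ∀ φ C, Bd G φ C → m (fun g => star (φ g)) = Star.star (m φ)
  cst : ∀ a, m (fun _ => a) = a
  eqv : ∀ φ ψ, (∀ g, InG G g → φ g = ψ g) → m φ = m ψ
  invl : ∀ φ C, Bd G φ C → ∀ h, InG G h → m (fun g => φ (h * g)) = m φ
  invr : ∀ φ C, Bd G φ C → ∀ h, InG G h → m (fun g => φ (g * h)) = m φ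
  nrm : ∀ φ C, Bd G φ C → ‖m φ‖ ≤ C
  mem : ∀ φ C, Bd G φ C → ∀ N : VonNeumannAlgebra H, (∀ g, InG G g → φ g ∈ N) → m φ ∈ N
  trc : ∀ φ C, Bd G φ C → ∀ ξ : ℕ → H, (Summable fun n => ‖ξ n‖ ^ 2) → ∀ D : ℝ,
    (∀ g, InG G g → ‖tr ξ (φ g)‖ ≤ D) → ‖tr ξ (m φ)‖ ≤ D

/-- MN. The union of an increasing sequence of finite groups is amenable. -/
def T_MN : Prop :=
  ∀ (H : Type) [NormedAddCommGroup H] [InnerProductSpace ℂ H] [CompleteSpace H]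
    (G : ℕ → Finset (H →L[ℂ] H)), GrpSeq G → ∃ m, IsMn G m

/-- POL. Polar parts. -/
def T_POL : Prop :=
  ∀ (H : Type) [NormedAddCommGroup H] [InnerProductSpace ℂ H] [CompleteSpace H]
    (T u : H →L[ℂ] H) (d : ℝ), UH u → ‖T - u‖ ≤ d → d ≤ 1 / 10 →
    ∃ v, UH v ∧ ‖v - u‖ ≤ 4 * d ∧ ‖v - T‖ ≤ ‖star T * T - 1‖ ∧
      (∀ N : VonNeumannAlgebra H, T ∈ N → v ∈ N) ∧
      ∀ a b, T * a = b * T → a * star T = star T * b → v * a = b * v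

/-- `v` is a homomorphism up to `δ` -/
structure Aph (N : VonNeumannAlgebra H) (G : ℕ → Finset (H →L[ℂ] H)) (δ : ℝ)
    (v : (H →L[ℂ] H) → (H →L[ℂ] H)) : Prop where
  uni : ∀ g, InG G g → Uni N (v g)
  mul : ∀ g, InG G g → ∀ h, InG G h → ‖v (g * h) - v g * v h‖ ≤ δ

/-- KZA. One step. -/
def T_KZA : Prop :=
  ∀ (H : Type) [NormedAddCommGroup H] [InnerProductSpace ℂ H] [CompleteSpace H]
    (N : VonNeumannAlgebra H) (G : ℕ → Finset (H →L[ℂ] H)), GrpSeq G → ∀ δ : ℝ, 0 ≤ δ →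
    δ ≤ 1 / 100 → ∀ v, Aph N G δ v →
    ∃ v', Aph N G (20 * δ ^ 2) v' ∧ ∀ g, InG G g → ‖v' g - v g‖ ≤ δ + 4 * δ ^ 2

/-- KZB. The limit of the iteration. -/
def T_KZB : Prop :=
  ∀ (H : Type) [NormedAddCommGroup H] [InnerProductSpace ℂ H] [CompleteSpace H]
    (N : VonNeumannAlgebra H) (G : ℕ → Finset (H →L[ℂ] H)), GrpSeq G → ∀ δ : ℝ, 0 ≤ δ →
    δ ≤ 6 / 1000 → ∀ v, Aph N G δ v →
    ∃ v', Aph N G 0 v' ∧ ∀ g, InG G g → ‖v' g - v g‖ ≤ 3 / 2 * δ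

end Pool.Agent.H39.IX
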